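import Mathlib
import Pool.Agent.H27Z.Iso.Defs
import Pool.Agent.H27Z.Iso.Main

set_option autoImplicit false

namespace Pool.Agent.Results.MP_5333ad_co.BoxCounterexample

open Pool.Agent.H27Z.IsoDefs

/-- The conjectured sharp stability bound fails: for every constant `c` there are a dimension `d`,
an `ε > 0` and a finite set `S` whose edge boundary is within a factor `1 + ε` of optimal, but
whose symmetric difference with every cube exceeds `c √(d ε) |S|`. -/
theorem result (c : ℝ) (hc : 0 < c) :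
    ∃ d : ℕ, 1 ≤ d ∧ ∃ ε : ℝ, 0 < ε ∧ ∃ S : Finset (Fin d → ℤ),
      (edgeBoundary S).Finite ∧
      ((edgeBoundary S).ncard : ℝ) ≤ 2 * d * (S.card : ℝ) ^ (((d : ℝ) - 1) / d) * (1 + ε) ∧
      ∀ (a : Fin d → ℤ) (k : ℕ), 1 ≤ k →
        c * √(d * ε) * S.card < (symmDiff S (cube a k)).card :=
  Pool.Agent.H27Z.Iso.main c hc

end Pool.Agent.Results.MP_5333ad_co.BoxCounterexample
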